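import Pool.Agent.X37.FE.Stm

/-! APX: `L n (B x) → x`. -/

set_option autoImplicit false

namespace Pool.Agent.X133.FE

open Filter Topology Pool.Agent.X37.FE

theorem t_APX (H : Type*) [NormedAddCommGroup H] [InnerProductSpace ℝ H] [CompleteSpace H] :
    S_APX H := by
  intro B L hd hL hb x
  rw [Metric.tendsto_atTop]
  intro ε hε
  obtain ⟨y, hy⟩ : ∃ y : H, ‖x - B (B y)‖ < ε / 4 := by
    obtain ⟨u, ⟨y, hyu⟩, hux⟩ := hd.exists_dist_lt x (show 0 < ε / 4 by positivity)
    refine ⟨y, ?_⟩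
    have hyu' : B (B y) = u := hyu
    rw [hyu', ← dist_eq_norm]
    exact hux
  · obtain ⟨N, hN⟩ := exists_nat_gt (‖B y‖ / (ε / 4))
    refine ⟨N, fun n hn => ?_⟩
    obtain ⟨u, hu⟩ : ∃ u, u = B (B y) := ⟨_, rfl⟩
    have hux : ‖x - u‖ < ε / 4 := by
      rw [hu]
      exact hy
    have h1 : ‖L n (B u) - u‖ ≤ 1 / ((n : ℝ) + 1) * ‖B y‖ := by
      have h2 := hL n u
      have h3 : L n (B u) - u = -((1 / ((n : ℝ) + 1)) • L n u) := by
        rw [eq_neg_iff_add_eq_zero]
        calc L n (B u) - u + (1 / ((n : ℝ) + 1)) • L n u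
            = (L n (B u) + (1 / ((n : ℝ) + 1)) • L n u) - u := by abel
          _ = 0 := by rw [h2, sub_self]
      rw [h3, norm_neg, norm_smul, Real.norm_of_nonneg (by positivity)]
      have h4 : ‖L n u‖ ≤ ‖B y‖ := by
        rw [hu]
        exact hb n (B y)
      gcongr
    have h5 : 1 / ((n : ℝ) + 1) * ‖B y‖ < ε / 4 := by
      have hn1 : (N : ℝ) ≤ n := by exact_mod_cast hn
      rw [div_lt_iff₀ (by positivity)] at hN
      rw [div_mul_eq_mul_div, one_mul, div_lt_iff₀ (by positivity)]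
      nlinarith
    have h6 : ‖L n (B (x - u))‖ ≤ ‖x - u‖ := hb n (x - u)
    have h7 : L n (B x) - x = L n (B (x - u)) + (L n (B u) - u) + (u - x) := by
      rw [map_sub, map_sub]
      abel
    rw [dist_eq_norm, h7]
    have h8 := norm_add_le (L n (B (x - u)) + (L n (B u) - u)) (u - x)
    have h9 := norm_add_le (L n (B (x - u))) (L n (B u) - u)
    rw [norm_sub_rev u x] at h8
    linarith

end Pool.Agent.X133.FE
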